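import Pool.Agent.R289.Blk
import Pool.Agent.R289.Erg

set_option autoImplicit false

/-!
# A mean ergodic convolution operator that is not power bounded

On the discrete (amenable) group `G = ℤ × S₃` let `z` be the generator of `ℤ`, let `s ≠ t` be two
transpositions and `N = (1 - s) t (1 + s)`, so that `N² = 0`. The finitely supported measure
`μ = -(1 + z) / 2 + (1 - z) / 2 * N` gives a mean ergodic operator on `ℓ²(G)` which is not power
bounded. For a discrete group `G` one has `M(G) = ℓ¹(G)` and `L²(G) = ℓ²(G)`.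
-/

namespace Pool.Agent.Results.MP_27f8b5_an.NotPowerBdd

open scoped ENNReal
open Filter Topology Pool.Agent.R289.Conv Pool.Agent.R289.Blk Pool.Agent.R289.Erg

/-- The bounded operator `T` is mean ergodic: for every `x` the means
`(x + T x + ⋯ + T^(n-1) x) / n` converge in norm. -/
def MeanErgodic {E : Type} [NormedAddCommGroup E] [NormedSpace ℂ E] (T : E →L[ℂ] E) : Prop :=
  ∀ x : E, ∃ y : E,
    Tendsto (fun n : ℕ => (n : ℂ)⁻¹ • ∑ k ∈ Finset.range n, (T ^ k) x) atTop (𝓝 y)

/-- The bounded operator `T` is power bounded: `sup_n ‖T^n‖ < ∞`. -/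
def PowerBounded {E : Type} [NormedAddCommGroup E] [NormedSpace ℂ E] (T : E →L[ℂ] E) : Prop :=
  ∃ M : ℝ, ∀ n : ℕ, ‖T ^ n‖ ≤ M

theorem two_pos' : 0 < (2 : ℝ≥0∞).toReal := by simp

/-- the measure -/
noncomputable def mu : MonoidAlgebra ℂ GG := -((2⁻¹ : ℂ) • (1 + z)) + ((2⁻¹ : ℂ) • (1 - z)) * N

/-- `z` and `N` as operators -/
noncomputable def Uop : Ell GG 2 →L[ℂ] Ell GG 2 := lam two_pos' z
noncomputable def Nop : Ell GG 2 →L[ℂ] Ell GG 2 := lam two_pos' N

theorem lam_mu : lam two_pos' mu = opT Uop Nop := by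
  rw [mu, map_add, map_neg, map_smul, map_mul, map_smul, map_add, map_sub, map_one]
  rfl

theorem norm_Uop (x : Ell GG 2) : ‖Uop x‖ = ‖x‖ := by
  rw [Uop, z, dl, lam_single, one_smul]
  exact norm_L_apply two_pos' zg x

theorem comm_UN : Commute Uop Nop := by
  unfold Commute SemiconjBy Uop Nop
  rw [← map_mul, ← map_mul, z_comm]

theorem Nop_sq : Nop * Nop = 0 := by
  rw [Nop, ← map_mul, N_sq, map_zero]

/-- the element `1 + z + ⋯ + z^(R-1)` -/
noncomputable def sR (R : ℕ) : MonoidAlgebra ℂ GG := ∑ k ∈ Finset.range R, z ^ k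

theorem sR_mul (R : ℕ) : (1 - z) * sR R = 1 - z ^ R := by
  induction R with
  | zero => simp [sR]
  | succ n ih =>
    rw [sR, Finset.sum_range_succ, mul_add]
    rw [sR] at ih
    rw [ih, sub_mul, one_mul, ← pow_succ']
    abel

/-- the signs -/
noncomputable def cR (R k : ℕ) : ℂ := if k < R then 1 else -1

theorem wR_eq (R : ℕ) : sR R * (1 - z ^ R) = ∑ k ∈ Finset.range (2 * R), cR R k • z ^ k := by
  rw [two_mul, Finset.sum_range_add, mul_sub, mul_one, sub_eq_add_neg, sR, Finset.sum_mul,
    ← Finset.sum_neg_distrib]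
  congr 1
  · refine Finset.sum_congr rfl fun k hk => ?_
    rw [cR, if_pos (Finset.mem_range.1 hk), one_smul]
  · refine Finset.sum_congr rfl fun k hk => ?_
    rw [cR, if_neg (by omega), neg_one_smul, ← pow_add, add_comm]

theorem norm_dl (g : GG) (x : Ell GG 2) : ‖lam two_pos' (dl g) x‖ = ‖x‖ := by
  rw [dl, lam_single, one_smul]
  exact norm_L_apply two_pos' g x

theorem lam_dl_delta (g : GG) [DecidableEq GG] :
    lam two_pos' (dl g) (delta 2) = lp.single 2 g (1 : ℂ) := by
  ext x
  rw [lam_delta]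
  show (Finsupp.single g 1 : GG →₀ ℂ) x = _
  by_cases h : x = g
  · subst h; rw [Finsupp.single_eq_same, lp.single_apply_self]
  · rw [Finsupp.single_eq_of_ne h, lp.single_apply_ne _ _ _ h]

/-- the test vectors -/
noncomputable def xR (R : ℕ) : Ell GG 2 := lam two_pos' (sR R * (1 - z ^ R)) (delta 2)

theorem norm_cR (R k : ℕ) : ‖cR R k‖ = 1 := by
  unfold cR
  split_ifs <;> simp

theorem norm_xR_sq (R : ℕ) : ‖xR R‖ ^ 2 = 2 * R := by
  classical
  set e : ℕ ↪ GG := ⟨fun k => (Multiplicative.ofAdd (k : ℤ), 1), fun a b hab => by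
    have h2 : (a : ℤ) = (b : ℤ) := congrArg (fun q : GG => Multiplicative.toAdd q.1) hab
    exact_mod_cast h2⟩ with he
  set F : GG → ℂ := fun g => cR R (Int.toNat (Multiplicative.toAdd g.1)) with hF
  have h1 : xR R = ∑ g ∈ (Finset.range (2 * R)).map e, lp.single 2 g (F g) := by
    rw [Finset.sum_map, xR, wR_eq, map_sum]
    have : ∀ s : Finset ℕ, (∑ k ∈ s, lam two_pos' (cR R k • z ^ k)) (delta 2) =
        ∑ k ∈ s, lp.single 2 (e k) (F (e k)) := by
      intro s
      induction s using Finset.induction_on with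
      | empty => simp
      | insert a s ha ih =>
        rw [Finset.sum_insert ha, Finset.sum_insert ha, ← ih]
        rw [add_apply]
        congr 1
        rw [map_smul, smul_apply, z_pow, lam_dl_delta]
        have e1 : F (e a) = cR R a := by
          simp [hF, he]
        rw [e1]
        show cR R a • lp.single (E := fun _ : GG => ℂ) 2 (e a) (1 : ℂ) = _
        rw [← lp.single_smul, smul_eq_mul, mul_one]
    exact this _
  have h2 := lp.norm_sum_single (E := fun _ : GG => ℂ) (p := 2) two_pos' F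
    ((Finset.range (2 * R)).map e)
  rw [← h1] at h2
  have h3 : ∀ g, ‖F g‖ ^ (2 : ℝ≥0∞).toReal = 1 := by
    intro g
    rw [hF]
    show ‖cR _ _‖ ^ _ = _
    rw [norm_cR]
    simp
  rw [Finset.sum_congr rfl fun g _ => h3 g] at h2
  simp at h2
  exact h2

theorem norm_N_xR (R : ℕ) : 2 * (R : ℝ) ≤ ‖Nop (xR R)‖ ^ 2 := by
  classical
  set e : ℕ ↪ GG := ⟨fun k => (Multiplicative.ofAdd (k : ℤ), Equiv.swap 1 2), fun a b hab => by
    have h2 : (a : ℤ) = (b : ℤ) := congrArg (fun q : GG => Multiplicative.toAdd q.1) hab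
    exact_mod_cast h2⟩ with he
  have h0 := lp.sum_rpow_le_norm_rpow (E := fun _ : GG => ℂ) (p := 2) two_pos' (Nop (xR R))
    ((Finset.range (2 * R)).map e)
  rw [Finset.sum_map] at h0
  have h1 : ∀ k ∈ Finset.range (2 * R), ‖Nop (xR R) (e k)‖ ^ (2 : ℝ≥0∞).toReal = 1 := by
    intro k hk
    have e1 : Nop (xR R) (e k) = cR R k := by
      have a1 : Nop (xR R) = lam two_pos' (∑ k ∈ Finset.range (2 * R), cR R k • (z ^ k * N))
          (delta 2) := by
        rw [Nop, xR]
        have : ∀ a b : MonoidAlgebra ℂ GG, lam two_pos' a (lam two_pos' b (delta 2)) =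
          lam two_pos' (a * b) (delta 2) := by
          intro a b
          rw [map_mul]; rfl
        rw [this, wR_eq, Finset.mul_sum]
        congr 2
        refine Finset.sum_congr rfl fun j _ => ?_
        rw [mul_smul_comm]
        congr 1
        clear * -
        induction j with
        | zero => simp
        | succ j ih => rw [pow_succ', ← mul_assoc, ← z_comm, mul_assoc, ih, mul_assoc]
      rw [a1, lam_delta]
      have a2 : ∀ a : MonoidAlgebra ℂ GG, a.coeff (e k) =
          ev (fun x => if x = e k then 1 else 0) a := by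
        intro a
        show _ = ∑' x, _
        rw [tsum_eq_single (e k)]
        · simp
        · intro x hx
          show _ * (if x = e k then (1 : ℂ) else 0) = 0
          rw [if_neg hx, mul_zero]
      rw [a2, map_sum, Finset.sum_eq_single k]
      · rw [map_smul, ev_zN]
        have h0 : ∀ y : Equiv.Perm (Fin 3), y ≠ Equiv.swap 1 2 →
            ((Multiplicative.ofAdd (k : ℤ), y) : GG) ≠ e k := by
          intro y hy h
          exact hy (congrArg Prod.snd h)
        simp only [hN]
        rw [if_neg (h0 (Equiv.swap 1 2 * Equiv.swap 0 1) (by decide)),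
          if_neg (h0 (Equiv.swap 0 1 * Equiv.swap 1 2) (by decide)),
          if_neg (h0 (Equiv.swap 0 1 * Equiv.swap 1 2 * Equiv.swap 0 1) (by decide))]
        simp [he]
      · intro j _ hj
        rw [map_smul, ev_zN]
        have h0 : ∀ y : Equiv.Perm (Fin 3), ((Multiplicative.ofAdd (j : ℤ), y) : GG) ≠ e k := by
          intro y h
          apply hj
          have h' : (j : ℤ) = (k : ℤ) := congrArg (fun q : GG => Multiplicative.toAdd q.1) h
          exact_mod_cast h'
        simp only [hN, if_neg (h0 _)]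
        simp
      · intro h
        exact absurd hk h
    rw [e1, norm_cR]
    simp
  rw [Finset.sum_congr rfl h1] at h0
  simp at h0
  exact h0

theorem xR_range (R : ℕ) : ∃ v : Ell GG 2, xR R = v - Uop v := by
  refine ⟨lam two_pos' (sR R * sR R) (delta 2), ?_⟩
  have h : sR R * (1 - z ^ R) = sR R * sR R - z * (sR R * sR R) := by
    rw [← sR_mul, ← mul_assoc, mul_sub, mul_one, ← z_comm]
    noncomm_ring
  rw [xR, h, map_sub, map_mul _ z]
  rfl

theorem xR_approx (R : ℕ) : ‖xR R - Uop (xR R)‖ ≤ 4 := by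
  have h : sR R * (1 - z ^ R) - z * (sR R * (1 - z ^ R)) = (1 - z ^ R) * (1 - z ^ R) := by
    rw [← sR_mul]
    noncomm_ring
  have h2 : xR R - Uop (xR R) = lam two_pos' (1 - z ^ R) (lam two_pos' (1 - z ^ R) (delta 2)) := by
    have : xR R - Uop (xR R) =
        lam two_pos' (sR R * (1 - z ^ R) - z * (sR R * (1 - z ^ R))) (delta 2) := by
      rw [xR, map_sub, map_mul _ z]; rfl
    rw [this, h, map_mul]; rfl
  have h3 : ∀ x : Ell GG 2, ‖lam two_pos' (1 - z ^ R) x‖ ≤ 2 * ‖x‖ := by
    intro x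
    rw [map_sub, map_one, z_pow]
    have h5 := norm_dl (Multiplicative.ofAdd (R : ℤ), 1) x
    have h6 : ‖x - lam two_pos' (dl (Multiplicative.ofAdd (R : ℤ), 1)) x‖ ≤ _ := norm_sub_le _ _
    rw [h5] at h6
    show ‖x - lam two_pos' (dl (Multiplicative.ofAdd (R : ℤ), 1)) x‖ ≤ _
    linarith
  have h4 : ‖(delta 2 : Ell GG 2)‖ = 1 := norm_delta (by simp)
  rw [h2]
  have h5 := h3 (lam two_pos' (1 - z ^ R) (delta 2))
  have h6 := h3 (delta 2)
  linarith

/-- There are a discrete group `G` and a finitely supported complex measure `μ` on `G` such that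
the convolution operator `λ_2(μ) f = μ * f` on `ℓ²(G)` is mean ergodic and not power bounded. -/
theorem result : ∃ (G : Type) (_ : Group G) (μ : G → ℂ), (Function.support μ).Finite ∧
    ∃ T : Ell G 2 →L[ℂ] Ell G 2, (∀ f x, T f x = conv μ f x) ∧ MeanErgodic T ∧
      ¬ PowerBounded T := by
  refine ⟨GG, inferInstance, mu.coeff, mu.coeff.hasFiniteSupport, lam two_pos' mu,
    fun f x => lam_apply two_pos' mu f x, ?_, ?_⟩
  · intro x
    rw [lam_mu]
    exact ⟨0, mean_tendsto norm_Uop comm_UN Nop_sq x⟩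
  · rintro ⟨M, hM⟩
    rw [lam_mu] at hM
    have key : ∀ ε : ℝ, 0 < ε → ∃ x v : Ell GG 2, x = v - Uop v ∧ ‖x‖ ≤ ‖Nop x‖ ∧
        ‖x - Uop x‖ ≤ ε * ‖Nop x‖ ∧ Nop x ≠ 0 := by
      intro ε hε
      obtain ⟨R, hR⟩ := exists_nat_gt (16 / ε ^ 2 : ℝ)
      have hR0 : (0 : ℝ) < R := lt_of_le_of_lt (by positivity) hR
      obtain ⟨v, hv⟩ := xR_range R
      have h1 := norm_xR_sq R
      have h2 := norm_N_xR R
      refine ⟨xR R, v, hv, ?_, ?_, ?_⟩
      · refine (sq_le_sq₀ (norm_nonneg _) (norm_nonneg _)).1 ?_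
        rw [h1]; exact h2
      · refine (xR_approx R).trans ?_
        refine (sq_le_sq₀ (by norm_num) (by positivity)).1 ?_
        rw [mul_pow]
        rw [div_lt_iff₀ (by positivity)] at hR
        nlinarith [sq_nonneg ε]
      · intro h
        rw [h, norm_zero] at h2
        simp at h2
        linarith
    obtain ⟨n, hn⟩ := not_bounded norm_Uop comm_UN Nop_sq key M
    exact absurd hn (not_lt.2 (hM n))

end Pool.Agent.Results.MP_27f8b5_an.NotPowerBdd
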